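import Mathlib

set_option autoImplicit false

/-!
# The joint return times for `n^(3/2)` and `α n^(3/2) + n` need not be thick
-/

namespace Pool.Agent.Q183.Thick

open Filter Topology

/-- `R_f(E) = {n ∈ ℕ : E ∩ (E - ⌊f(n)⌋) ≠ ∅}`, `ℕ = {1, 2, …}`: some `x ∈ E` satisfies `x + ⌊f(n)⌋ ∈ E`. -/
def R (f : ℝ → ℝ) (E : Set ℕ) : Set ℕ := {n | 1 ≤ n ∧ ∃ x ∈ E, ∃ y ∈ E, (y : ℤ) = x + ⌊f n⌋}

/-- the upper density `limsup |E ∩ {1, …, N}| / N` -/
noncomputable def upperDensity (E : Set ℕ) : ℝ :=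
  limsup (fun N : ℕ => ((E ∩ Set.Icc 1 N).ncard : ℝ) / N) atTop

/-- A set is thick if it contains arbitrarily long intervals of consecutive integers. -/
def Thick (S : Set ℕ) : Prop := ∀ L : ℕ, ∃ a : ℕ, ∀ i ≤ L, a + i ∈ S

/-- the distance to the nearest integer -/
noncomputable def nd (x : ℝ) : ℝ := ‖(x : UnitAddCircle)‖

theorem nd_add (x y : ℝ) : nd (x + y) ≤ nd x + nd y := by
  unfold nd
  rw [AddCircle.coe_add]
  exact norm_add_le _ _

theorem nd_neg (x : ℝ) : nd (-x) = nd x := by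
  unfold nd
  rw [AddCircle.coe_neg, norm_neg]

theorem nd_sub (x y : ℝ) : nd (x - y) ≤ nd x + nd y := by
  rw [sub_eq_add_neg, ← nd_neg y]
  exact nd_add x (-y)

theorem nd_le_abs (x : ℝ) : nd x ≤ |x| := by
  unfold nd
  rw [UnitAddCircle.norm_eq]
  have := round_le x 0
  simpa using this

theorem nd_int (k : ℤ) : nd k = 0 := by
  unfold nd
  rw [UnitAddCircle.norm_eq]
  simp

theorem nd_nonneg (x : ℝ) : 0 ≤ nd x := norm_nonneg _

theorem nd_pos {x : ℝ} (hx : Irrational x) : 0 < nd x := by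
  unfold nd
  rw [UnitAddCircle.norm_eq, abs_pos, sub_ne_zero]
  exact hx.ne_int _

/-- the Bohr set -/
def bohr (α ε : ℝ) : Set ℕ := {m | 1 ≤ m ∧ nd (m / α) < ε}

theorem bohr_diff {α ε : ℝ} {f : ℝ → ℝ} {n : ℕ} (h : n ∈ R f (bohr α ε)) : nd ((⌊f n⌋ : ℝ) / α) < 2 * ε := by
  obtain ⟨_, x, hx, y, hy, hxy⟩ := h
  have e : ((⌊f n⌋ : ℝ)) / α = (y : ℝ) / α - (x : ℝ) / α := by
    have : ((y : ℤ) : ℝ) = ((x + ⌊f n⌋ : ℤ) : ℝ) := by rw [hxy]
    push_cast at this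
    rw [this]; ring
  rw [e]
  have := nd_sub ((y : ℝ) / α) ((x : ℝ) / α)
  have h1 := hx.2
  have h2 := hy.2
  linarith

/-- `t^(3/2)` -/
noncomputable def g (t : ℝ) : ℝ := t ^ (3 / 2 : ℝ)

theorem g_eq {t : ℝ} (ht : 0 ≤ t) : g t = (Real.sqrt t) ^ 3 := by
  rw [g, Real.sqrt_eq_rpow, ← Real.rpow_natCast, ← Real.rpow_mul ht]
  norm_num

theorem g_step {t : ℝ} (ht : 0 < t) :
    3 / 2 * Real.sqrt t ≤ g (t + 1) - g t ∧ g (t + 1) - g t ≤ 3 / 2 * Real.sqrt (t + 1) := by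
  rw [g_eq ht.le, g_eq (by linarith)]
  set x := Real.sqrt t with hx
  set y := Real.sqrt (t + 1) with hy
  have hx2 : x ^ 2 = t := Real.sq_sqrt ht.le
  have hy2 : y ^ 2 = t + 1 := Real.sq_sqrt (by linarith)
  have hx0 : 0 < x := Real.sqrt_pos.mpr ht
  have hy0 : 0 < y := Real.sqrt_pos.mpr (by linarith)
  have hxy : x < y := Real.sqrt_lt_sqrt ht.le (by linarith)
  have h1 : (y - x) * (y + x) = 1 := by nlinarith
  have hs : 0 < y + x := by linarith
  constructor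
  · have h2 : 3 / 2 * x * ((y - x) * (y + x)) ≤ y ^ 3 - x ^ 3 := by
      have e : y ^ 3 - x ^ 3 - 3 / 2 * x * ((y - x) * (y + x)) = (y - x) ^ 2 * (y + x / 2) := by ring
      have : 0 ≤ (y - x) ^ 2 * (y + x / 2) := by positivity
      linarith
    rw [h1, mul_one] at h2
    exact h2
  · have h2 : y ^ 3 - x ^ 3 ≤ 3 / 2 * y * ((y - x) * (y + x)) := by
      have e : 3 / 2 * y * ((y - x) * (y + x)) - (y ^ 3 - x ^ 3) = (y - x) ^ 2 * (y / 2 + x) := by ring
      have : 0 ≤ (y - x) ^ 2 * (y / 2 + x) := by positivity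
      linarith
    rw [h1, mul_one] at h2
    exact h2

theorem sqrt_gap {n M : ℝ} (hn : 0 < n) (hM : 0 ≤ M) : Real.sqrt (n + M) - Real.sqrt n ≤ M / Real.sqrt n := by
  have h0 : 0 < Real.sqrt n := Real.sqrt_pos.mpr hn
  have h1 : Real.sqrt n ≤ Real.sqrt (n + M) := Real.sqrt_le_sqrt (by linarith)
  have h2 : Real.sqrt (n + M) ^ 2 = n + M := Real.sq_sqrt (by linarith)
  have h3 : Real.sqrt n ^ 2 = n := Real.sq_sqrt hn.le
  rw [le_div_iff₀ h0]
  nlinarith

/-- increments of `g` on a long interval far out are nearly equal -/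
theorem g_close {η : ℝ} (hη : 0 < η) (L : ℕ) : ∃ n₀ : ℕ, ∀ n : ℕ, n₀ ≤ n → 1 ≤ n ∧ ∀ i ≤ L, ∀ j ≤ L,
    |(g ((n : ℝ) + i + 1) - g ((n : ℝ) + i)) - (g ((n : ℝ) + j + 1) - g ((n : ℝ) + j))| < η := by
  obtain ⟨n₀, hn₀⟩ := exists_nat_gt ((3 / 2 * (L + 1) / η) ^ 2)
  refine ⟨n₀ + 1, fun n hn => ⟨by omega, fun i hi j hj => ?_⟩⟩
  have hnr : (n₀ : ℝ) + 1 ≤ n := by exact_mod_cast hn
  have hn0 : (0 : ℝ) < n := by
    have : (0 : ℝ) ≤ n₀ := by positivity
    linarith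
  have hir : (i : ℝ) ≤ L := by exact_mod_cast hi
  have hjr : (j : ℝ) ≤ L := by exact_mod_cast hj
  have hi0 : (0 : ℝ) ≤ i := by positivity
  have hj0 : (0 : ℝ) ≤ j := by positivity
  have b : ∀ i : ℕ, (i : ℝ) ≤ L → 0 ≤ (i : ℝ) →
      3 / 2 * Real.sqrt n ≤ g ((n : ℝ) + i + 1) - g ((n : ℝ) + i) ∧
      g ((n : ℝ) + i + 1) - g ((n : ℝ) + i) ≤ 3 / 2 * Real.sqrt (n + (L + 1)) := by
    intro i hi hi0
    obtain ⟨h1, h2⟩ := g_step (t := (n : ℝ) + i) (by linarith)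
    have h3 : Real.sqrt n ≤ Real.sqrt ((n : ℝ) + i) := Real.sqrt_le_sqrt (by linarith)
    have h4 : Real.sqrt ((n : ℝ) + i + 1) ≤ Real.sqrt (n + (L + 1)) := Real.sqrt_le_sqrt (by linarith)
    constructor <;> linarith
  obtain ⟨b1, b2⟩ := b i hir hi0
  obtain ⟨b3, b4⟩ := b j hjr hj0
  have h5 := sqrt_gap (n := n) (M := (L : ℝ) + 1) hn0 (by positivity)
  have h6 : 3 / 2 * (((L : ℝ) + 1) / Real.sqrt n) < η := by
    have h7 : 3 / 2 * ((L : ℝ) + 1) / η < Real.sqrt n := by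
      apply Real.lt_sqrt_of_sq_lt
      linarith
    have h8 : 0 < Real.sqrt n := Real.sqrt_pos.mpr hn0
    rw [div_lt_iff₀ hη] at h7
    rw [← mul_div_assoc, div_lt_iff₀ h8]
    linarith
  rw [abs_lt]
  constructor <;> nlinarith

/-- If all `⌊f(n + j)⌋`, `j ≤ L`, are close to `0` modulo `α` and the increments of `f` are nearly constant, then the
`⌊f(n + j)⌋` form an arithmetic progression. -/
theorem const_step {α ε δ : ℝ} (hδ1 : δ ≤ nd (1 / α)) (hδ2 : δ ≤ nd (2 / α)) (hε : 8 * ε ≤ δ) {f : ℝ → ℝ}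
    {n L : ℕ} (hR : ∀ j ≤ L, nd ((⌊f ((n : ℝ) + j)⌋ : ℝ) / α) < 2 * ε)
    (hf : ∀ i < L, ∀ j < L, |(f ((n : ℝ) + i + 1) - f ((n : ℝ) + i)) - (f ((n : ℝ) + j + 1) - f ((n : ℝ) + j))| < 1)
    (hL : 0 < L) : ∃ κ : ℤ, nd ((κ : ℝ) / α) < 4 * ε ∧ ⌊f ((n : ℝ) + L)⌋ - ⌊f (n : ℝ)⌋ = L * κ := by
  set d : ℕ → ℤ := fun j => ⌊f ((n : ℝ) + j + 1)⌋ - ⌊f ((n : ℝ) + j)⌋ with hd
  have hnd : ∀ j < L, nd ((d j : ℝ) / α) < 4 * ε := by
    intro j hj
    have h1 := hR j hj.le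
    have h2 := hR (j + 1) hj
    have e : ((d j : ℤ) : ℝ) / α = (⌊f ((n : ℝ) + (j + 1 : ℕ))⌋ : ℝ) / α - (⌊f ((n : ℝ) + j)⌋ : ℝ) / α := by
      simp only [hd]
      push_cast
      rw [← add_assoc]
      ring
    rw [e]
    have := nd_sub ((⌊f ((n : ℝ) + (j + 1 : ℕ))⌋ : ℝ) / α) ((⌊f ((n : ℝ) + j)⌋ : ℝ) / α)
    linarith
  have heq : ∀ j < L, d j = d 0 := by
    intro j hj
    have h1 := hf j hj 0 hL
    have f1 := Int.floor_le (f ((n : ℝ) + j + 1))
    have f2 := Int.lt_floor_add_one (f ((n : ℝ) + j + 1))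
    have f3 := Int.floor_le (f ((n : ℝ) + j))
    have f4 := Int.lt_floor_add_one (f ((n : ℝ) + j))
    have f5 := Int.floor_le (f ((n : ℝ) + (0 : ℕ) + 1))
    have f6 := Int.lt_floor_add_one (f ((n : ℝ) + (0 : ℕ) + 1))
    have f7 := Int.floor_le (f ((n : ℝ) + (0 : ℕ)))
    have f8 := Int.lt_floor_add_one (f ((n : ℝ) + (0 : ℕ)))
    rw [abs_lt] at h1
    have g1 : ((d j - d 0 : ℤ) : ℝ) < 3 := by
      simp only [hd]
      push_cast at *
      linarith [h1.1, h1.2]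
    have g2 : (-3 : ℝ) < ((d j - d 0 : ℤ) : ℝ) := by
      simp only [hd]
      push_cast at *
      linarith [h1.1, h1.2]
    have g3 : d j - d 0 < 3 := by exact_mod_cast g1
    have g4 : -3 < d j - d 0 := by exact_mod_cast g2
    have h2 : nd (((d j - d 0 : ℤ) : ℝ) / α) < 8 * ε := by
      have e : (((d j - d 0 : ℤ) : ℝ)) / α = (d j : ℝ) / α - (d 0 : ℝ) / α := by push_cast; ring
      rw [e]
      have := nd_sub ((d j : ℝ) / α) ((d 0 : ℝ) / α)
      have a1 := hnd j hj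
      have a2 := hnd 0 hL
      linarith
    have h3 : d j - d 0 = 0 ∨ d j - d 0 = 1 ∨ d j - d 0 = 2 ∨ d j - d 0 = -1 ∨ d j - d 0 = -2 := by omega
    rcases h3 with h | h | h | h | h
    · omega
    · rw [h] at h2; push_cast at h2; linarith
    · rw [h] at h2; push_cast at h2; linarith
    · rw [h] at h2; push_cast at h2
      rw [neg_div, nd_neg] at h2; linarith
    · rw [h] at h2; push_cast at h2
      rw [neg_div, nd_neg] at h2; linarith
  refine ⟨d 0, hnd 0 hL, ?_⟩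
  have hsum : ∀ M ≤ L, ⌊f ((n : ℝ) + M)⌋ - ⌊f (n : ℝ)⌋ = M * d 0 := by
    intro M hM
    induction M with
    | zero => simp
    | succ M ih =>
      have h1 := ih (by omega)
      have h2 := heq M (by omega)
      have e : ⌊f ((n : ℝ) + (M + 1 : ℕ))⌋ = ⌊f ((n : ℝ) + M)⌋ + d M := by
        simp only [hd]
        push_cast
        rw [← add_assoc]
        ring
      rw [e, h2]
      push_cast
      linarith
  exact hsum L le_rfl

/-- the second function -/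
noncomputable def g2 (α t : ℝ) : ℝ := α * t ^ (3 / 2 : ℝ) + t

theorem not_thick {α : ℝ} (hα : Irrational α) : ∃ ε : ℝ, 0 < ε ∧ ¬ Thick (R g (bohr α ε) ∩ R (g2 α) (bohr α ε)) := by
  have hα0 : α ≠ 0 := hα.ne_zero
  have hinv : Irrational (1 / α) := by rw [one_div]; exact hα.inv
  have hinv2 : Irrational (2 / α) := by
    have : (2 : ℝ) / α = ((2 : ℕ) : ℝ) * (1 / α) := by push_cast; ring
    rw [this]
    exact hinv.natCast_mul (by norm_num)
  set δ := min (nd (1 / α)) (nd (2 / α)) with hδ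
  have hδ0 : 0 < δ := lt_min (nd_pos hinv) (nd_pos hinv2)
  refine ⟨δ / 16, by positivity, fun hT => ?_⟩
  set ε := δ / 16 with hε
  have habs : 0 < |α| := abs_pos.mpr hα0
  obtain ⟨L, hL⟩ := exists_nat_gt (4 * (1 + |α|) / (|α| * δ))
  have hLr : (0 : ℝ) < L := lt_trans (by positivity) hL
  have hLn : 0 < L := by exact_mod_cast hLr
  obtain ⟨n₀, hn₀⟩ := g_close (η := 1 / (1 + |α|)) (by positivity) L
  obtain ⟨a, ha⟩ := hT (n₀ + L)
  set n := a + n₀ with hn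
  obtain ⟨hn1, hclose⟩ := hn₀ n (by omega)
  have hmem : ∀ j ≤ L, n + j ∈ R g (bohr α ε) ∩ R (g2 α) (bohr α ε) := by
    intro j hj
    have := ha (n₀ + j) (by omega)
    rw [← add_assoc] at this
    exact this
  have hcast : ∀ j : ℕ, ((n + j : ℕ) : ℝ) = (n : ℝ) + j := fun j => by push_cast; ring
  have hR1 : ∀ j ≤ L, nd ((⌊g ((n : ℝ) + j)⌋ : ℝ) / α) < 2 * ε := by
    intro j hj
    have := bohr_diff (hmem j hj).1
    rw [hcast] at this
    exact this
  have hR2 : ∀ j ≤ L, nd ((⌊g2 α ((n : ℝ) + j)⌋ : ℝ) / α) < 2 * ε := by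
    intro j hj
    have := bohr_diff (hmem j hj).2
    rw [hcast] at this
    exact this
  have hη1 : 1 / (1 + |α|) ≤ 1 := by
    rw [div_le_one (by positivity)]; linarith
  have hη2 : |α| * (1 / (1 + |α|)) ≤ 1 := by
    rw [mul_one_div, div_le_one (by positivity)]; linarith
  obtain ⟨κ₁, hκ1, hs1⟩ := const_step (δ := δ) (min_le_left _ _) (min_le_right _ _) (by rw [hε]; linarith) hR1
    (fun i hi j hj => lt_of_lt_of_le (hclose i hi.le j hj.le) hη1) hLn
  have hg2 : ∀ t, g2 α t = α * g t + t := fun t => rfl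
  obtain ⟨κ₂, hκ2, hs2⟩ := const_step (δ := δ) (f := g2 α) (min_le_left _ _) (min_le_right _ _) (by rw [hε]; linarith)
    hR2 (fun i hi j hj => by
      rw [hg2, hg2, hg2, hg2]
      have e : (α * g ((n : ℝ) + i + 1) + ((n : ℝ) + i + 1) - (α * g ((n : ℝ) + i) + ((n : ℝ) + i))) -
          (α * g ((n : ℝ) + j + 1) + ((n : ℝ) + j + 1) - (α * g ((n : ℝ) + j) + ((n : ℝ) + j))) =
          α * ((g ((n : ℝ) + i + 1) - g ((n : ℝ) + i)) - (g ((n : ℝ) + j + 1) - g ((n : ℝ) + j))) := by ring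
      rw [e, abs_mul]
      refine lt_of_lt_of_le (mul_lt_mul_of_pos_left (hclose i hi.le j hj.le) habs) hη2) hLn
  -- compare
  have f1 := Int.floor_le (g ((n : ℝ) + L))
  have f2 := Int.lt_floor_add_one (g ((n : ℝ) + L))
  have f3 := Int.floor_le (g (n : ℝ))
  have f4 := Int.lt_floor_add_one (g (n : ℝ))
  have f5 := Int.floor_le (g2 α ((n : ℝ) + L))
  have f6 := Int.lt_floor_add_one (g2 α ((n : ℝ) + L))
  have f7 := Int.floor_le (g2 α (n : ℝ))
  have f8 := Int.lt_floor_add_one (g2 α (n : ℝ))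
  have hs1' : (⌊g ((n : ℝ) + L)⌋ : ℝ) - ⌊g (n : ℝ)⌋ = L * κ₁ := by exact_mod_cast hs1
  have hs2' : (⌊g2 α ((n : ℝ) + L)⌋ : ℝ) - ⌊g2 α (n : ℝ)⌋ = L * κ₂ := by exact_mod_cast hs2
  have h1 : |(L : ℝ) * κ₁ - (g ((n : ℝ) + L) - g n)| ≤ 1 := by
    rw [← hs1', abs_le]; constructor <;> linarith
  have h2 : |(L : ℝ) * κ₂ - (g2 α ((n : ℝ) + L) - g2 α n)| ≤ 1 := by
    rw [← hs2', abs_le]; constructor <;> linarith
  have h3 : |(L : ℝ) * (κ₂ - α * κ₁ - 1)| ≤ 1 + |α| := by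
    have e : (L : ℝ) * (κ₂ - α * κ₁ - 1) = ((L : ℝ) * κ₂ - (g2 α ((n : ℝ) + L) - g2 α n)) -
        α * ((L : ℝ) * κ₁ - (g ((n : ℝ) + L) - g n)) := by
      rw [hg2, hg2]; ring
    rw [e]
    refine (abs_sub _ _).trans ?_
    rw [abs_mul]
    have := mul_le_mul_of_nonneg_left h1 habs.le
    linarith
  rw [abs_mul, abs_of_pos hLr] at h3
  have h4 : |((κ₂ : ℝ) - α * κ₁ - 1) / α| ≤ δ / 4 := by
    rw [abs_div, div_le_iff₀ habs]
    rw [div_lt_iff₀ (by positivity)] at hL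
    have h5 : 0 ≤ |(κ₂ : ℝ) - α * κ₁ - 1| := abs_nonneg _
    by_contra hcon
    rw [not_le] at hcon
    have h6 : (L : ℝ) * (δ / 4 * |α|) < L * |(κ₂ : ℝ) - α * κ₁ - 1| := mul_lt_mul_of_pos_left hcon hLr
    linarith
  have e : 1 / α = (κ₂ : ℝ) / α - (κ₁ : ℤ) - ((κ₂ : ℝ) - α * κ₁ - 1) / α := by
    field_simp
    ring
  have h5 : nd (1 / α) ≤ nd ((κ₂ : ℝ) / α) + nd (κ₁ : ℤ) + |((κ₂ : ℝ) - α * κ₁ - 1) / α| := by
    calc nd (1 / α) = nd ((κ₂ : ℝ) / α - (κ₁ : ℤ) - ((κ₂ : ℝ) - α * κ₁ - 1) / α) := by rw [← e]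
      _ ≤ nd ((κ₂ : ℝ) / α - (κ₁ : ℤ)) + nd (((κ₂ : ℝ) - α * κ₁ - 1) / α) := nd_sub _ _
      _ ≤ nd ((κ₂ : ℝ) / α) + nd (κ₁ : ℤ) + |((κ₂ : ℝ) - α * κ₁ - 1) / α| :=
          add_le_add (nd_sub _ _) (nd_le_abs _)
  rw [nd_int] at h5
  have h6 : δ ≤ nd (1 / α) := min_le_left _ _
  rw [hε] at hκ2
  linarith

/-- the Bohr set has positive upper density -/
theorem bohr_density (α : ℝ) {ε : ℝ} (hε : 0 < ε) : 0 < upperDensity (bohr α ε) := by
  obtain ⟨K, hK⟩ := exists_nat_gt (1 / ε)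
  have hKr : (0 : ℝ) < K := lt_trans (by positivity) hK
  have hKn : 0 < K := by exact_mod_cast hKr
  have hfin : ∀ N, (bohr α ε ∩ Set.Icc 1 N).Finite := fun N => (Set.finite_Icc 1 N).inter_of_right _
  have hcount : ∀ N : ℕ, N ≤ K * ((bohr α ε ∩ Set.Icc 1 N).ncard + 1) := by
    intro N
    -- cells
    set c : ℕ → ℕ := fun m => ⌊(K : ℝ) * Int.fract ((m : ℝ) / α)⌋₊ with hc
    have hmaps : ∀ m ∈ Finset.Icc 1 N, c m ∈ Finset.range K := by
      intro m _
      rw [Finset.mem_range, hc]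
      have h1 : (K : ℝ) * Int.fract ((m : ℝ) / α) < K := by
        have := Int.fract_lt_one ((m : ℝ) / α)
        nlinarith
      exact (Nat.floor_lt (mul_nonneg hKr.le (Int.fract_nonneg _))).mpr h1
    have hcell : ∀ k ∈ Finset.range K, ((Finset.Icc 1 N).filter fun m => c m = k).card ≤
        (bohr α ε ∩ Set.Icc 1 N).ncard + 1 := by
      intro k _
      rcases ((Finset.Icc 1 N).filter fun m => c m = k).eq_empty_or_nonempty with he | hne
      · rw [he]; simp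
      · set m₀ := ((Finset.Icc 1 N).filter fun m => c m = k).min' hne with hm₀
        have hm₀mem := ((Finset.Icc 1 N).filter fun m => c m = k).min'_mem hne
        rw [← hm₀, Finset.mem_filter, Finset.mem_Icc] at hm₀mem
        have h1 : (((Finset.Icc 1 N).filter fun m => c m = k).erase m₀).card ≤ (hfin N).toFinset.card := by
          refine Finset.card_le_card_of_injOn (fun m => m - m₀) ?_ ?_
          · intro m hm
            rw [Finset.mem_coe, Finset.mem_erase, Finset.mem_filter, Finset.mem_Icc] at hm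
            obtain ⟨hne', ⟨h1, h2⟩, h3⟩ := hm
            have hle : m₀ ≤ m := Finset.min'_le _ _ (Finset.mem_filter.mpr ⟨Finset.mem_Icc.mpr ⟨h1, h2⟩, h3⟩)
            have hlt : m₀ < m := lt_of_le_of_ne hle (Ne.symm hne')
            rw [Finset.mem_coe, Set.Finite.mem_toFinset]
            show m - m₀ ∈ bohr α ε ∩ Set.Icc 1 N
            have g1 : 1 ≤ m - m₀ := by omega
            have g2 : m - m₀ ≤ N := by omega
            refine ⟨⟨g1, ?_⟩, ⟨g1, g2⟩⟩
            have hcc : c m = c m₀ := by rw [h3, hm₀mem.2]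
            have hx0 : 0 ≤ (K : ℝ) * Int.fract ((m : ℝ) / α) := mul_nonneg hKr.le (Int.fract_nonneg _)
            have hy0 : 0 ≤ (K : ℝ) * Int.fract ((m₀ : ℝ) / α) := mul_nonneg hKr.le (Int.fract_nonneg _)
            have a1 := Nat.floor_le hx0
            have a2 := Nat.lt_floor_add_one ((K : ℝ) * Int.fract ((m : ℝ) / α))
            have a3 := Nat.floor_le hy0
            have a4 := Nat.lt_floor_add_one ((K : ℝ) * Int.fract ((m₀ : ℝ) / α))
            have a5 : (⌊(K : ℝ) * Int.fract ((m : ℝ) / α)⌋₊ : ℝ) = ⌊(K : ℝ) * Int.fract ((m₀ : ℝ) / α)⌋₊ := by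
              exact_mod_cast hcc
            have a6 : |Int.fract ((m : ℝ) / α) - Int.fract ((m₀ : ℝ) / α)| < 1 / K := by
              rw [abs_lt]
              constructor
              · rw [neg_lt, lt_div_iff₀ hKr]; nlinarith
              · rw [lt_div_iff₀ hKr]; nlinarith
            have e : (((m - m₀ : ℕ) : ℝ)) / α = (Int.fract ((m : ℝ) / α) - Int.fract ((m₀ : ℝ) / α)) +
                ((⌊(m : ℝ) / α⌋ - ⌊(m₀ : ℝ) / α⌋ : ℤ) : ℝ) := by
              rw [Nat.cast_sub hle]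
              have b1 := Int.fract_add_floor ((m : ℝ) / α)
              have b2 := Int.fract_add_floor ((m₀ : ℝ) / α)
              push_cast
              rw [sub_div]
              linarith
            rw [e]
            have b1 := nd_add (Int.fract ((m : ℝ) / α) - Int.fract ((m₀ : ℝ) / α))
              ((⌊(m : ℝ) / α⌋ - ⌊(m₀ : ℝ) / α⌋ : ℤ) : ℝ)
            rw [nd_int] at b1
            have b2 := nd_le_abs (Int.fract ((m : ℝ) / α) - Int.fract ((m₀ : ℝ) / α))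
            have b3 : 1 / (K : ℝ) < ε := by
              rw [div_lt_iff₀ hKr]
              rw [div_lt_iff₀ hε] at hK
              linarith
            linarith
          · intro m hm m' hm' hmm
            rw [Finset.mem_coe, Finset.mem_erase, Finset.mem_filter, Finset.mem_Icc] at hm hm'
            have hle : m₀ ≤ m := Finset.min'_le _ _ (Finset.mem_filter.mpr ⟨Finset.mem_Icc.mpr hm.2.1, hm.2.2⟩)
            have hle' : m₀ ≤ m' := Finset.min'_le _ _ (Finset.mem_filter.mpr ⟨Finset.mem_Icc.mpr hm'.2.1, hm'.2.2⟩)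
            simp only at hmm
            omega
        rw [Finset.card_erase_of_mem (Finset.mem_filter.mpr ⟨Finset.mem_Icc.mpr hm₀mem.1, hm₀mem.2⟩),
          ← Set.ncard_eq_toFinset_card _ (hfin N)] at h1
        omega
    have h2 := Finset.card_eq_sum_card_fiberwise (f := c) (s := Finset.Icc 1 N) (t := Finset.range K) hmaps
    rw [Nat.card_Icc, Nat.add_sub_cancel] at h2
    calc N = ∑ k ∈ Finset.range K, ((Finset.Icc 1 N).filter fun m => c m = k).card := h2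
      _ ≤ ∑ _k ∈ Finset.range K, ((bohr α ε ∩ Set.Icc 1 N).ncard + 1) := Finset.sum_le_sum hcell
      _ = K * ((bohr α ε ∩ Set.Icc 1 N).ncard + 1) := by rw [Finset.sum_const, Finset.card_range, smul_eq_mul]
  have hbdd : IsBoundedUnder (· ≤ ·) atTop (fun N : ℕ => ((bohr α ε ∩ Set.Icc 1 N).ncard : ℝ) / N) := by
    refine isBoundedUnder_of ⟨1, fun N => ?_⟩
    refine div_le_one_of_le₀ ?_ (by positivity)
    have h1 : (bohr α ε ∩ Set.Icc 1 N).ncard ≤ (Set.Icc 1 N).ncard :=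
      Set.ncard_le_ncard Set.inter_subset_right (Set.finite_Icc 1 N)
    have h2 : (Set.Icc 1 N).ncard = N := by
      rw [Set.ncard_eq_toFinset_card', Set.toFinset_Icc, Nat.card_Icc]; omega
    rw [h2] at h1
    exact_mod_cast h1
  have hev : ∃ᶠ N : ℕ in atTop, 1 / (2 * K) ≤ ((bohr α ε ∩ Set.Icc 1 N).ncard : ℝ) / N := by
    apply Eventually.frequently
    filter_upwards [eventually_ge_atTop (2 * K + 1)] with N hN
    have h1 : (N : ℝ) ≤ K * (((bohr α ε ∩ Set.Icc 1 N).ncard : ℝ) + 1) := by exact_mod_cast hcount N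
    have h2 : (2 * K + 1 : ℝ) ≤ N := by exact_mod_cast hN
    rw [div_le_div_iff₀ (by positivity) (by linarith)]
    nlinarith
  have := le_limsup_of_frequently_le hev hbdd
  have h3 : (0 : ℝ) < 1 / (2 * K) := by positivity
  exact lt_of_lt_of_le h3 this

end Pool.Agent.Q183.Thick
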