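import Mathlib
import Pool.Agent.Q183.Thick.Main

set_option autoImplicit false

/-!
# A Hardy field containing `t^(3/2)` and `α t^(3/2) + t`
-/

namespace Pool.Agent.Q183.Thick

open Filter Topology Polynomial

/-- A Hardy field: a set of germs at infinity which is a field under the pointwise operations and is closed under
differentiation. -/
structure IsHardyField (H : Set (Germ (atTop : Filter ℝ) ℝ)) : Prop where
  zero_mem : 0 ∈ H
  one_mem : 1 ∈ H
  add_mem : ∀ φ ∈ H, ∀ ψ ∈ H, φ + ψ ∈ H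
  neg_mem : ∀ φ ∈ H, -φ ∈ H
  mul_mem : ∀ φ ∈ H, ∀ ψ ∈ H, φ * ψ ∈ H
  inv_mem : ∀ φ ∈ H, φ ≠ 0 → ∃ ψ ∈ H, φ * ψ = 1
  deriv_mem : ∀ F : ℝ → ℝ, (F : Germ (atTop : Filter ℝ) ℝ) ∈ H →
    (∀ᶠ t in atTop, DifferentiableAt ℝ F t) ∧ ((deriv F : ℝ → ℝ) : Germ (atTop : Filter ℝ) ℝ) ∈ H

/-- rational functions of `√t` -/
noncomputable def rs (p q : ℝ[X]) (t : ℝ) : ℝ := p.eval (Real.sqrt t) / q.eval (Real.sqrt t)

/-- the germs of the rational functions of `√t` -/
def HH : Set (Germ (atTop : Filter ℝ) ℝ) := {φ | ∃ p q : ℝ[X], q ≠ 0 ∧ φ = (rs p q : ℝ → ℝ)}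

theorem ev_ne {q : ℝ[X]} (hq : q ≠ 0) : ∀ᶠ t : ℝ in atTop, q.eval (Real.sqrt t) ≠ 0 :=
  Real.tendsto_sqrt_atTop.eventually (Polynomial.eventually_no_roots q hq)

theorem ev_nhds {F G : ℝ → ℝ} (h : F =ᶠ[atTop] G) : ∀ᶠ t in atTop, F =ᶠ[𝓝 t] G := by
  obtain ⟨T, hT⟩ := eventually_atTop.mp h
  filter_upwards [eventually_gt_atTop T] with t ht
  filter_upwards [Ioi_mem_nhds ht] with s hs
  exact hT s (le_of_lt hs)

theorem rs_hasDeriv {p q : ℝ[X]} {t : ℝ} (ht : 0 < t) (hq : q.eval (Real.sqrt t) ≠ 0) :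
    HasDerivAt (rs p q) (rs (derivative p * q - p * derivative q) (C 2 * X * q ^ 2) t) t := by
  have hs : Real.sqrt t ≠ 0 := (Real.sqrt_pos.mpr ht).ne'
  have h1 := Real.hasDerivAt_sqrt ht.ne'
  have h2 := (p.hasDerivAt (Real.sqrt t)).comp t h1
  have h3 := (q.hasDerivAt (Real.sqrt t)).comp t h1
  have h4 := h2.div h3 hq
  refine h4.congr_deriv ?_
  simp only [rs, Function.comp, eval_sub, eval_mul, eval_pow, eval_C, eval_X]
  field_simp

theorem isHardyField_HH : IsHardyField HH where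
  zero_mem := ⟨0, 1, one_ne_zero, by
    rw [← Germ.coe_zero]; refine Germ.coe_eq.mpr (Eventually.of_forall fun t => ?_); simp [rs]⟩
  one_mem := ⟨1, 1, one_ne_zero, by
    rw [← Germ.coe_one]; refine Germ.coe_eq.mpr (Eventually.of_forall fun t => ?_); simp [rs]⟩
  add_mem := by
    rintro _ ⟨p, q, hq, rfl⟩ _ ⟨p', q', hq', rfl⟩
    refine ⟨p * q' + p' * q, q * q', mul_ne_zero hq hq', ?_⟩
    rw [← Germ.coe_add]
    refine Germ.coe_eq.mpr ?_
    filter_upwards [ev_ne hq, ev_ne hq'] with t h1 h2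
    simp only [rs, Pi.add_apply, eval_add, eval_mul]
    field_simp
  neg_mem := by
    rintro _ ⟨p, q, hq, rfl⟩
    refine ⟨-p, q, hq, ?_⟩
    rw [← Germ.coe_neg]
    refine Germ.coe_eq.mpr (Eventually.of_forall fun t => ?_)
    simp [rs, neg_div]
  mul_mem := by
    rintro _ ⟨p, q, hq, rfl⟩ _ ⟨p', q', hq', rfl⟩
    refine ⟨p * p', q * q', mul_ne_zero hq hq', ?_⟩
    rw [← Germ.coe_mul]
    refine Germ.coe_eq.mpr (Eventually.of_forall fun t => ?_)
    simp only [rs, Pi.mul_apply, eval_mul]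
    rw [div_mul_div_comm]
  inv_mem := by
    rintro _ ⟨p, q, hq, rfl⟩ hne
    have hp : p ≠ 0 := by
      rintro rfl
      apply hne
      rw [← Germ.coe_zero]
      refine Germ.coe_eq.mpr (Eventually.of_forall fun t => ?_)
      simp [rs]
    refine ⟨_, ⟨q, p, hp, rfl⟩, ?_⟩
    rw [← Germ.coe_mul, ← Germ.coe_one]
    refine Germ.coe_eq.mpr ?_
    filter_upwards [ev_ne hq, ev_ne hp] with t h1 h2
    simp only [rs, Pi.mul_apply, Pi.one_apply]
    field_simp
  deriv_mem := by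
    rintro F ⟨p, q, hq, hF⟩
    have h1 : F =ᶠ[atTop] rs p q := Germ.coe_eq.mp hF
    have h2 := ev_nhds h1
    constructor
    · filter_upwards [h2, ev_ne hq, eventually_gt_atTop 0] with t a1 a2 a3
      exact ((rs_hasDeriv (p := p) a3 a2).congr_of_eventuallyEq a1).differentiableAt
    · refine ⟨derivative p * q - p * derivative q, C 2 * X * q ^ 2, ?_, ?_⟩
      · exact mul_ne_zero (mul_ne_zero (by simp) X_ne_zero) (pow_ne_zero 2 hq)
      · refine Germ.coe_eq.mpr ?_
        filter_upwards [h2, ev_ne hq, eventually_gt_atTop 0] with t a1 a2 a3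
        exact ((rs_hasDeriv (p := p) a3 a2).congr_of_eventuallyEq a1).deriv

theorem g_mem : ((g : ℝ → ℝ) : Germ (atTop : Filter ℝ) ℝ) ∈ HH := by
  refine ⟨X ^ 3, 1, one_ne_zero, Germ.coe_eq.mpr ?_⟩
  filter_upwards [eventually_ge_atTop 0] with t ht
  rw [g_eq ht]; simp [rs]

theorem g2_mem (α : ℝ) : ((g2 α : ℝ → ℝ) : Germ (atTop : Filter ℝ) ℝ) ∈ HH := by
  refine ⟨C α * X ^ 3 + X ^ 2, 1, one_ne_zero, Germ.coe_eq.mpr ?_⟩
  filter_upwards [eventually_ge_atTop 0] with t ht
  have : g2 α t = α * g t + t := rfl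
  rw [this, g_eq ht]
  simp [rs, Real.sq_sqrt ht]

/-- polynomial in `√t` up to an error tending to `0` -/
def Asym (u : ℝ → ℝ) (p : ℝ[X]) : Prop := Tendsto (fun t => u t - p.eval (Real.sqrt t)) atTop (𝓝 0)

theorem Asym.congr {u v : ℝ → ℝ} {p : ℝ[X]} (h : Asym v p) (he : u =ᶠ[atTop] v) : Asym u p := by
  refine Tendsto.congr' ?_ h
  filter_upwards [he] with t ht
  rw [ht]

theorem Asym.comb {u v : ℝ → ℝ} {p q : ℝ[X]} (hu : Asym u p) (hv : Asym v q) (c d : ℝ) :
    Asym (fun t => c * u t + d * v t) (C c * p + C d * q) := by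
  have h := (hu.const_mul c).add (hv.const_mul d)
  rw [mul_zero, mul_zero, add_zero] at h
  refine h.congr fun t => ?_
  simp only [eval_add, eval_mul, eval_C]
  ring

theorem Asym.limit {u : ℝ → ℝ} {p : ℝ[X]} (hu : Asym u p) (hp : p.degree ≤ 0 → p = 0) :
    Tendsto (fun t => |u t|) atTop (𝓝 0) ∨ Tendsto (fun t => |u t|) atTop atTop := by
  by_cases h : p = 0
  · left
    subst h
    have hu' : Tendsto (fun t => u t - (0 : ℝ[X]).eval (Real.sqrt t)) atTop (𝓝 0) := hu
    have : Tendsto u atTop (𝓝 0) := hu'.congr fun t => by simp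
    simpa using this.abs
  · right
    have hdeg : 0 < p.degree := by
      by_contra hcon
      exact h (hp (not_lt.mp hcon))
    have h1 : Tendsto (fun t : ℝ => |p.eval (Real.sqrt t)|) atTop atTop :=
      (Polynomial.abs_tendsto_atTop p hdeg).comp Real.tendsto_sqrt_atTop
    have h2 : ∀ᶠ t in atTop, |u t - p.eval (Real.sqrt t)| < 1 := by
      have := hu.abs
      rw [abs_zero] at this
      exact this.eventually (gt_mem_nhds one_pos)
    refine tendsto_atTop_mono' atTop ?_ (tendsto_atTop_add_const_right atTop (-1) h1)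
    filter_upwards [h2] with t ht
    have := abs_sub_abs_le_abs_sub (p.eval (Real.sqrt t)) (u t)
    rw [abs_sub_comm] at this
    linarith

/-- the derivatives of `t^(3/2)` -/
theorem iter_g (m : ℕ) : ∃ c : ℝ, iteratedDeriv m g =ᶠ[atTop] fun t => c * t ^ (3 / 2 - m : ℝ) := by
  induction m with
  | zero => exact ⟨1, Eventually.of_forall fun t => by simp [g]⟩
  | succ m ih =>
    obtain ⟨c, hc⟩ := ih
    refine ⟨c * (3 / 2 - m), ?_⟩
    rw [iteratedDeriv_succ]
    filter_upwards [ev_nhds hc, eventually_gt_atTop 0] with t a1 a2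
    rw [a1.deriv_eq]
    have := (Real.hasDerivAt_rpow_const (x := t) (p := (3 / 2 - m : ℝ)) (Or.inl a2.ne')).const_mul c
    rw [this.deriv]
    push_cast
    rw [show (3 / 2 - ((m : ℝ) + 1)) = 3 / 2 - m - 1 by ring]
    ring

theorem iter_one : iteratedDeriv 1 g =ᶠ[atTop] fun t => 3 / 2 * Real.sqrt t := by
  rw [iteratedDeriv_one]
  filter_upwards [eventually_gt_atTop 0] with t a2
  have := Real.hasDerivAt_rpow_const (x := t) (p := (3 / 2 : ℝ)) (Or.inl a2.ne')
  have e : g = fun t : ℝ => t ^ (3 / 2 : ℝ) := rfl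
  rw [e, this.deriv, Real.sqrt_eq_rpow]
  norm_num

theorem iter_g_zero {m : ℕ} (hm : 2 ≤ m) : Tendsto (iteratedDeriv m g) atTop (𝓝 0) := by
  obtain ⟨c, hc⟩ := iter_g m
  refine Tendsto.congr' hc.symm ?_
  have hmr : (2 : ℝ) ≤ m := by exact_mod_cast hm
  have h1 := (tendsto_rpow_neg_atTop (y := (m - 3 / 2 : ℝ)) (by linarith)).const_mul c
  rw [mul_zero] at h1
  refine h1.congr fun t => ?_
  rw [show -((m : ℝ) - 3 / 2) = 3 / 2 - m by ring]

theorem iter_g2 (α : ℝ) (m : ℕ) : iteratedDeriv m (g2 α) =ᶠ[atTop]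
    fun t => α * iteratedDeriv m g t + (if m = 0 then t else if m = 1 then 1 else 0) := by
  induction m with
  | zero => exact Eventually.of_forall fun t => by simp [g2, g]
  | succ m ih =>
    obtain ⟨c, hc⟩ := iter_g m
    rw [iteratedDeriv_succ]
    filter_upwards [ev_nhds ih, ev_nhds hc, eventually_gt_atTop 0] with t a1 a2 a3
    rw [a1.deriv_eq]
    have hd : DifferentiableAt ℝ (iteratedDeriv m g) t := by
      have := (Real.hasDerivAt_rpow_const (x := t) (p := (3 / 2 - m : ℝ)) (Or.inl a3.ne')).const_mul c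
      exact (this.congr_of_eventuallyEq a2).differentiableAt
    have hd2 : HasDerivAt (fun t : ℝ => if m = 0 then t else if m = 1 then (1 : ℝ) else 0)
        (if m = 0 then 1 else 0) t := by
      by_cases h0 : m = 0
      · simp only [h0, if_true]; exact hasDerivAt_id t
      · simp only [h0, if_false]; exact hasDerivAt_const t _
    have h3 := (hd.hasDerivAt.const_mul α).add hd2
    have h4 : deriv (fun t => α * iteratedDeriv m g t + (if m = 0 then t else if m = 1 then 1 else 0)) t =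
        α * deriv (iteratedDeriv m g) t + if m = 0 then 1 else 0 := h3.deriv
    rw [h4, iteratedDeriv_succ]
    by_cases h0 : m = 0 <;> simp [h0]

theorem asym_g (m : ℕ) : Asym (iteratedDeriv m g) (if m = 0 then X ^ 3 else if m = 1 then C (3 / 2) * X else 0) := by
  unfold Asym
  rcases m with _ | _ | m
  · refine Tendsto.congr' ?_ tendsto_const_nhds
    filter_upwards [eventually_ge_atTop 0] with t ht
    simp [g_eq ht]
  · refine Tendsto.congr' ?_ tendsto_const_nhds
    filter_upwards [iter_one] with t ht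
    rw [zero_add, ht]
    simp
  · have := iter_g_zero (m := m + 1 + 1) (by omega)
    refine this.congr fun t => ?_
    simp

theorem asym_g2 (α : ℝ) (m : ℕ) : Asym (iteratedDeriv m (g2 α))
    (if m = 0 then C α * X ^ 3 + X ^ 2 else if m = 1 then C (3 / 2 * α) * X + 1 else 0) := by
  refine Asym.congr ?_ (iter_g2 α m)
  have h1 := (asym_g m).const_mul α
  rw [mul_zero] at h1
  refine Tendsto.congr' ?_ h1
  filter_upwards [eventually_ge_atTop 0] with t ht
  rcases m with _ | _ | m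
  · simp [Real.sq_sqrt ht]; ring
  · simp; ring
  · simp

/-- the hypothesis on the integer combinations of derivatives -/
theorem combos {α : ℝ} (hα : Irrational α) (c₁ c₂ : ℤ) (m₁ m₂ : ℕ) :
    Tendsto (fun t => |(c₁ : ℝ) * iteratedDeriv m₁ g t + c₂ * iteratedDeriv m₂ (g2 α) t|) atTop (𝓝 0) ∨
    Tendsto (fun t => |(c₁ : ℝ) * iteratedDeriv m₁ g t + c₂ * iteratedDeriv m₂ (g2 α) t|) atTop atTop := by
  refine Asym.limit ((asym_g m₁).comb (asym_g2 α m₂) c₁ c₂) ?_
  intro hdeg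
  have hco : ∀ k, 1 ≤ k → (C (c₁ : ℝ) * (if m₁ = 0 then X ^ 3 else if m₁ = 1 then C (3 / 2) * X else 0) +
      C (c₂ : ℝ) * (if m₂ = 0 then C α * X ^ 3 + X ^ 2 else if m₂ = 1 then C (3 / 2 * α) * X + 1 else 0)
        : ℝ[X]).coeff k = 0 := by
    intro k hk
    refine coeff_eq_zero_of_degree_lt (lt_of_le_of_lt hdeg ?_)
    exact_mod_cast hk
  have k1 := hco 1 le_rfl
  have k2 := hco 2 (by norm_num)
  have k3 := hco 3 (by norm_num)
  have hα0 : α ≠ 0 := hα.ne_zero
  have hirr : ∀ c d : ℤ, (c : ℝ) + d * α = 0 → d = 0 := by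
    intro c d h
    by_contra hd
    have hdr : (d : ℝ) ≠ 0 := by exact_mod_cast hd
    apply hα
    refine ⟨-(c : ℚ) / d, ?_⟩
    push_cast
    field_simp
    linarith
  rcases m₁ with _ | _ | m₁ <;> rcases m₂ with _ | _ | m₂ <;>
    simp [coeff_X_pow, coeff_one] at k1 k2 k3 ⊢
  · have h1 : (c₁ : ℝ) = 0 := by rw [k2] at k3; simpa using k3
    have h2 : c₁ = 0 := by exact_mod_cast h1
    simp [k2, h2]
  · simp [k1.resolve_right hα0, k3]
  · exact k3
  · simp [k1, k2]
  · have h1 : (c₁ : ℝ) + c₂ * α = 0 := by linarith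
    have h2 := hirr c₁ c₂ h1
    rw [h2] at h1
    have h3 : (c₁ : ℝ) = 0 := by simpa using h1
    have h4 : c₁ = 0 := by exact_mod_cast h3
    simp [h2, h4]
  · exact k1
  · exact Or.inl k2
  · exact Or.inl (k1.resolve_right hα0)

end Pool.Agent.Q183.Thick
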